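import Mathlib

/-!
Order relations on a finite set, the fixed point property, maximal chains of order relations.
-/

set_option autoImplicit false

namespace Pool.Agent.K9h39.Fpp

open Finset

section defs

variable {V : Type}

/-- `R` is an order relation. -/
def IsOrd (R : V → V → Prop) : Prop :=
  (∀ a, R a a) ∧ (∀ a b, R a b → R b a → a = b) ∧ ∀ a b c, R a b → R b c → R a c

/-- The fixed point property: every order-preserving self-map has a fixed point. -/
def FPP (R : V → V → Prop) : Prop :=
  ∀ f : V → V, (∀ a b, R a b → R (f a) (f b)) → ∃ a, f a = a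

/-- `R'` has exactly one strict comparable pair more than `R`. -/
def Step (R R' : V → V → Prop) : Prop :=
  ∃ x y, x ≠ y ∧ ¬ R x y ∧ ∀ a b, R' a b ↔ R a b ∨ (a = x ∧ b = y)

end defs

/-- A maximal chain of order relations on `{0, ..., n - 1}`: order relations
`ord 0, ord 1, ..., ord (n.choose 2)`, where `ord 0` is the discrete order and `ord (i + 1)` has
exactly one strict comparable pair more than `ord i`. (The values `ord i` with `i > n.choose 2` play
no role.) -/
structure MaxChain (n : ℕ) where
  /-- The members of the chain. -/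
  ord : ℕ → Fin n → Fin n → Prop
  /-- The members are order relations. -/
  isOrd : ∀ i ≤ n.choose 2, IsOrd (ord i)
  /-- The first member is the discrete order. -/
  zero : ∀ a b, ord 0 a b ↔ a = b
  /-- Each step adds one strict comparable pair. -/
  step : ∀ i < n.choose 2, Step (ord i) (ord (i + 1))

open Classical in
/-- The number of members of the chain with the fixed point property. -/
noncomputable def numFPP {n : ℕ} (c : MaxChain n) : ℕ :=
  ((range (n.choose 2 + 1)).filter fun i => FPP (c.ord i)).card

open Classical in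
/-- The number of adjacencies of the chain for which the smaller order lacks the fixed point property
and the larger order has it. -/
noncomputable def numAdj {n : ℕ} (c : MaxChain n) : ℕ :=
  ((range (n.choose 2)).filter fun i => ¬ FPP (c.ord i) ∧ FPP (c.ord (i + 1))).card

section fpp

variable {V : Type}

lemma IsOrd.flip {R : V → V → Prop} (h : IsOrd R) : IsOrd (fun a b => R b a) :=
  ⟨h.1, fun a b h1 h2 => h.2.1 a b h2 h1, fun a b c h1 h2 => h.2.2 c b a h2 h1⟩

lemma exists_fixed_of_le [Finite V] {R : V → V → Prop} (h : IsOrd R) (f : V → V)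
    (hf : ∀ a b, R a b → R (f a) (f b)) (a : V) (ha : R a (f a)) : ∃ a, f a = a := by
  classical
  cases nonempty_fintype V
  obtain ⟨b, hb, hmax⟩ := Finset.exists_max_image (univ.filter fun b => R b (f b))
    (fun b => (univ.filter fun z => R z b).card) ⟨a, by simpa using ha⟩
  simp only [mem_filter, mem_univ, true_and] at hb hmax
  refine ⟨b, ?_⟩
  by_contra hne
  have h1 := hmax (f b) (hf _ _ hb)
  have h2 : (univ.filter fun z => R z b).card < (univ.filter fun z => R z (f b)).card := by
    apply Finset.card_lt_card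
    rw [Finset.ssubset_iff_of_subset]
    · refine ⟨f b, ?_, ?_⟩
      · simpa using h.1 (f b)
      · simp only [mem_filter, mem_univ, true_and]
        intro h3
        exact hne (h.2.1 _ _ h3 hb)
    · intro z hz
      simp only [mem_filter, mem_univ, true_and] at hz ⊢
      exact h.2.2 _ _ _ hz hb
  omega

/-- A fixed point free order-preserving map sends every point to an incomparable one. -/
lemma not_comparable [Finite V] {R : V → V → Prop} (h : IsOrd R) (f : V → V)
    (hf : ∀ a b, R a b → R (f a) (f b)) (hfix : ∀ a, f a ≠ a) (a : V) :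
    ¬ R a (f a) ∧ ¬ R (f a) a := by
  constructor
  · intro h1
    obtain ⟨b, hb⟩ := exists_fixed_of_le h f hf a h1
    exact hfix b hb
  · intro h1
    obtain ⟨b, hb⟩ := exists_fixed_of_le h.flip f (fun a b h2 => hf b a h2) a h1
    exact hfix b hb

lemma FPP_of_comparable [Finite V] {R : V → V → Prop} (h : IsOrd R) (x : V)
    (hx : ∀ y, R x y ∨ R y x) : FPP R := by
  intro f hf
  by_contra hne
  push Not at hne
  have h1 := not_comparable h f hf hne x
  rcases hx (f x) with h2 | h2
  · exact h1.1 h2
  · exact h1.2 h2

lemma not_FPP_of_isolated {R : V → V → Prop} (hR : ∀ a, R a a) (u v : V) (huv : u ≠ v)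
    (h1 : ∀ w, R v w → w = v) (h2 : ∀ w, R w v → w = v) : ¬ FPP R := by
  classical
  intro h
  have hm : ∀ a b, R a b → R (if a = v then u else v) (if b = v then u else v) := by
    intro a b hab
    by_cases ha : a = v
    · subst ha
      have := h1 b hab
      subst this
      exact hR _
    · by_cases hb : b = v
      · subst hb
        exact absurd (h2 a hab) ha
      · simp only [ha, hb, if_false]
        exact hR _
  obtain ⟨a, ha⟩ := h (fun w => if w = v then u else v) hm
  by_cases hav : a = v
  · simp only [hav, if_true] at ha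
    exact huv ha
  · simp only [hav, if_false] at ha
    exact hav ha.symm

end fpp

section ext

variable {V : Type} [Fintype V] [DecidableEq V]

open Classical in
/-- The number of strict comparable pairs. -/
noncomputable def num (R : V → V → Prop) : ℕ :=
  (univ.filter fun p : V × V => p.1 ≠ p.2 ∧ R p.1 p.2).card

lemma num_step {R R' : V → V → Prop} (h : Step R R') : num R' = num R + 1 := by
  classical
  obtain ⟨x, y, hxy, hR, h⟩ := h
  unfold num
  have h1 : (univ.filter fun p : V × V => p.1 ≠ p.2 ∧ R' p.1 p.2) =
      insert (x, y) (univ.filter fun p : V × V => p.1 ≠ p.2 ∧ R p.1 p.2) := by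
    ext ⟨a, b⟩
    simp only [mem_filter, mem_univ, true_and, mem_insert, Prod.mk.injEq, h]
    constructor
    · rintro ⟨h1, h2 | h2⟩
      · right
        exact ⟨h1, h2⟩
      · left
        exact h2
    · rintro (⟨rfl, rfl⟩ | h2)
      · exact ⟨hxy, Or.inr ⟨rfl, rfl⟩⟩
      · exact ⟨h2.1, Or.inl h2.2⟩
  rw [h1, Finset.card_insert_of_notMem]
  simp [hR]

lemma num_eq_zero {R : V → V → Prop} (h : ∀ a b, R a b ↔ a = b) : num R = 0 := by
  classical
  unfold num
  rw [Finset.card_eq_zero, Finset.filter_eq_empty_iff]
  rintro ⟨a, b⟩ _ ⟨h1, h2⟩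
  exact h1 ((h a b).1 h2)

open Classical in
/-- The number of ordered incomparable pairs. -/
noncomputable def inc (R : V → V → Prop) : ℕ :=
  (univ.filter fun p : V × V => ¬ R p.1 p.2 ∧ ¬ R p.2 p.1).card

lemma inc_add {R : V → V → Prop} (h : IsOrd R) :
    inc R + 2 * num R + Fintype.card V = Fintype.card V * Fintype.card V := by
  classical
  have h0 : (univ.filter fun p : V × V => p.1 ≠ p.2 ∧ R p.2 p.1).card = num R := by
    unfold num
    refine Finset.card_bij (fun p _ => (p.2, p.1)) ?_ ?_ ?_
    · rintro ⟨a, b⟩ hp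
      simp only [mem_filter, mem_univ, true_and] at hp ⊢
      exact ⟨hp.1.symm, hp.2⟩
    · rintro ⟨a, b⟩ _ ⟨c, d⟩ _ h1
      simp only [Prod.mk.injEq] at h1
      exact Prod.ext h1.2 h1.1
    · rintro ⟨a, b⟩ hp
      simp only [mem_filter, mem_univ, true_and] at hp
      refine ⟨(b, a), ?_, rfl⟩
      simp only [mem_filter, mem_univ, true_and]
      exact ⟨hp.1.symm, hp.2⟩
  have hd : (univ.filter fun p : V × V => p.1 = p.2).card = Fintype.card V := by
    rw [← Finset.card_univ]
    symm
    refine Finset.card_bij (fun a _ => (a, a)) ?_ ?_ ?_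
    · intro a _
      simp
    · intro a _ b _ h1
      exact congrArg Prod.fst h1
    · rintro ⟨a, b⟩ hp
      simp only [mem_filter, mem_univ, true_and] at hp
      subst hp
      exact ⟨a, mem_univ _, rfl⟩
  have h1 : Fintype.card V * Fintype.card V = (univ : Finset (V × V)).card := by
    rw [Finset.card_univ, Fintype.card_prod]
  rw [h1]
  have h2 : (univ : Finset (V × V)) =
      ((univ.filter fun p : V × V => ¬ R p.1 p.2 ∧ ¬ R p.2 p.1) ∪
      ((univ.filter fun p : V × V => p.1 ≠ p.2 ∧ R p.1 p.2) ∪
        (univ.filter fun p : V × V => p.1 ≠ p.2 ∧ R p.2 p.1))) ∪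
      (univ.filter fun p : V × V => p.1 = p.2) := by
    ext ⟨a, b⟩
    simp only [mem_univ, mem_union, mem_filter, true_and, true_iff]
    by_cases hab : a = b
    · right
      exact hab
    · left
      by_cases h3 : R a b
      · right
        left
        exact ⟨hab, h3⟩
      · by_cases h4 : R b a
        · right
          right
          exact ⟨hab, h4⟩
        · left
          exact ⟨h3, h4⟩
  rw [h2, Finset.card_union_of_disjoint, Finset.card_union_of_disjoint,
    Finset.card_union_of_disjoint, h0, hd]
  · unfold inc num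
    ring
  · rw [Finset.disjoint_left]
    rintro ⟨a, b⟩ h3 h4
    simp only [mem_filter, mem_univ, true_and] at h3 h4
    exact h3.1 (h.2.1 _ _ h3.2 h4.2)
  · rw [Finset.disjoint_left]
    rintro ⟨a, b⟩ h3 h4
    simp only [mem_filter, mem_univ, true_and, mem_union] at h3 h4
    rcases h4 with h4 | h4
    · exact h3.1 h4.2
    · exact h3.2 h4.2
  · rw [Finset.disjoint_left]
    rintro ⟨a, b⟩ h3 h4
    simp only [mem_filter, mem_univ, true_and, mem_union] at h3 h4
    subst h4
    rcases h3 with h3 | h3 | h3
    · exact h3.1 (h.1 _)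
    · exact h3.1 rfl
    · exact h3.1 rfl

omit [DecidableEq V] in
/-- If there are few incomparable pairs then some point is comparable to all points. -/
lemma FPP_of_inc_lt {R : V → V → Prop} (h : IsOrd R) (hinc : inc R < Fintype.card V) :
    FPP R := by
  classical
  by_contra hne
  have h1 : ∀ x, ∃ y, ¬ R x y ∧ ¬ R y x := by
    intro x
    by_contra h2
    push Not at h2
    apply hne
    apply FPP_of_comparable h x
    intro y
    by_cases h3 : R x y
    · exact Or.inl h3
    · exact Or.inr (h2 y h3)
  choose g hg1 hg2 using h1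
  have h2 : Fintype.card V ≤ inc R := by
    unfold inc
    rw [← Finset.card_univ]
    refine Finset.card_le_card_of_injOn (fun x => (x, g x)) ?_ ?_
    · intro x _
      simp only [coe_filter, mem_univ, true_and, Set.mem_ofPred_eq]
      exact ⟨hg1 x, hg2 x⟩
    · intro x _ y _ h3
      exact congrArg Prod.fst h3
  omega

/-- One can add a pair of `R'` to a smaller order `R`. -/
lemma exists_step {R R' : V → V → Prop} (h : IsOrd R) (h' : IsOrd R')
    (hle : ∀ a b, R a b → R' a b) (hne : ∃ a b, R' a b ∧ ¬ R a b) :
    ∃ R'', IsOrd R'' ∧ Step R R'' ∧ (∀ a b, R a b → R'' a b) ∧ ∀ a b, R'' a b → R' a b := by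
  classical
  obtain ⟨a0, b0, hab⟩ := hne
  obtain ⟨⟨x, y⟩, hxy, hmin⟩ := Finset.exists_min_image
    (univ.filter fun p : V × V => R' p.1 p.2 ∧ ¬ R p.1 p.2)
    (fun p => (univ.filter fun z => R z p.1).card + (univ.filter fun z => R p.2 z).card)
    ⟨(a0, b0), by simpa using hab⟩
  simp only [mem_filter, mem_univ, true_and, Prod.forall] at hxy hmin
  have hne : x ≠ y := by
    rintro rfl
    exact hxy.2 (h.1 _)
  have hlow : ∀ w, R w x → w ≠ x → R w y := by
    intro w hw hwx
    by_contra h1
    have h2 := hmin w y ⟨h'.2.2 _ _ _ (hle _ _ hw) hxy.1, h1⟩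
    have h3 : (univ.filter fun z => R z w).card < (univ.filter fun z => R z x).card := by
      apply Finset.card_lt_card
      rw [Finset.ssubset_iff_of_subset]
      · refine ⟨x, by simpa using h.1 x, ?_⟩
        simp only [mem_filter, mem_univ, true_and]
        intro h3
        exact hwx (h.2.1 _ _ hw h3)
      · intro z hz
        simp only [mem_filter, mem_univ, true_and] at hz ⊢
        exact h.2.2 _ _ _ hz hw
    omega
  have hup : ∀ w, R y w → w ≠ y → R x w := by
    intro w hw hwy
    by_contra h1
    have h2 := hmin x w ⟨h'.2.2 _ _ _ hxy.1 (hle _ _ hw), h1⟩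
    have h3 : (univ.filter fun z => R w z).card < (univ.filter fun z => R y z).card := by
      apply Finset.card_lt_card
      rw [Finset.ssubset_iff_of_subset]
      · refine ⟨y, by simpa using h.1 y, ?_⟩
        simp only [mem_filter, mem_univ, true_and]
        intro h3
        exact hwy (h.2.1 _ _ h3 hw)
      · intro z hz
        simp only [mem_filter, mem_univ, true_and] at hz ⊢
        exact h.2.2 _ _ _ hw hz
    omega
  have hyx : ¬ R y x := by
    intro h1
    exact hne (h'.2.1 _ _ hxy.1 (hle _ _ h1))
  refine ⟨fun a b => R a b ∨ (a = x ∧ b = y), ⟨fun a => Or.inl (h.1 a), ?_, ?_⟩,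
    ⟨x, y, hne, hxy.2, fun a b => Iff.rfl⟩, fun a b h1 => Or.inl h1, ?_⟩
  · rintro a b (h1 | ⟨rfl, rfl⟩) (h2 | ⟨h2, h3⟩)
    · exact h.2.1 _ _ h1 h2
    · subst h2 h3
      exact absurd h1 hyx
    · exact absurd h2 hyx
    · exact h3
  · rintro a b c (h1 | ⟨rfl, rfl⟩) (h2 | ⟨h2, h3⟩)
    · exact Or.inl (h.2.2 _ _ _ h1 h2)
    · subst h2 h3
      by_cases h4 : a = b
      · exact Or.inr ⟨h4, rfl⟩
      · exact Or.inl (hlow a h1 h4)
    · by_cases h4 : c = b
      · exact Or.inr ⟨rfl, h4⟩
      · exact Or.inl (hup c h2 h4)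
    · exact Or.inr ⟨rfl, h3⟩
  · rintro a b (h1 | ⟨rfl, rfl⟩)
    · exact hle _ _ h1
    · exact hxy.1

end ext

end Pool.Agent.K9h39.Fpp
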