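import Pool.Agent.K9h39.Fpp.Path

/-!
Bounds for all maximal chains.
-/

set_option autoImplicit false

namespace Pool.Agent.K9h39.Fpp

open Finset

lemma mul_self_eq (n : ℕ) : n * n = n + 2 * n.choose 2 := by
  rw [Nat.choose_two_right]
  rcases n with _ | n
  · simp
  · have h3 : (n + 1) * (n + 1) = (n + 1) * n + (n + 1) := by ring
    have h4 : (n + 1) * n % 2 = 0 := by
      rw [mul_comm]
      exact Nat.even_iff.1 (Nat.even_mul_succ_self n)
    simp only [Nat.add_sub_cancel]
    omega

lemma num_ord {n : ℕ} (ch : MaxChain n) : ∀ i ≤ n.choose 2, num (ch.ord i) = i := by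
  intro i
  induction i with
  | zero => intro _; exact num_eq_zero ch.zero
  | succ i ih =>
    intro h
    rw [num_step (ch.step i (by omega)), ih (by omega)]

lemma inc_ord {n : ℕ} (ch : MaxChain n) (i : ℕ) (hi : i ≤ n.choose 2) :
    inc (ch.ord i) = 2 * (n.choose 2 - i) := by
  have h1 := inc_add (ch.isOrd i hi)
  rw [num_ord ch i hi, Fintype.card_fin] at h1
  have h2 := mul_self_eq n
  omega

lemma FPP_of_large {n : ℕ} (ch : MaxChain n) (i : ℕ) (hi : i ≤ n.choose 2)
    (h : 2 * (n.choose 2 - i) < n) : FPP (ch.ord i) := by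
  apply FPP_of_inc_lt (ch.isOrd i hi)
  rw [inc_ord ch i hi, Fintype.card_fin]
  exact h

/-- An order with few comparable pairs lacks the fixed point property. -/
lemma not_FPP_of_num_lt {V : Type} [Fintype V] [DecidableEq V] {R : V → V → Prop} (h : IsOrd R)
    (hn : num R + 1 < Fintype.card V) : ¬ FPP R := by
  classical
  let G : SimpleGraph V :=
    { Adj := fun a b => a ≠ b ∧ (R a b ∨ R b a)
      symm := ⟨fun a b h => ⟨h.1.symm, h.2.symm⟩⟩
      loopless := ⟨fun a h => h.1 rfl⟩ }
  have hedge : Nat.card G.edgeSet ≤ num R := by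
    rw [Nat.card_eq_fintype_card, ← SimpleGraph.edgeFinset_card]
    unfold num
    have h1 : G.edgeFinset ⊆
        (univ.filter fun p : V × V => p.1 ≠ p.2 ∧ R p.1 p.2).image (fun p => s(p.1, p.2)) := by
      intro e
      induction e using Sym2.ind with
      | _ a b =>
        intro he
        rw [SimpleGraph.mem_edgeFinset, SimpleGraph.mem_edgeSet] at he
        rw [mem_image]
        rcases he.2 with h2 | h2
        · exact ⟨(a, b), by simpa using ⟨he.1, h2⟩, rfl⟩
        · refine ⟨(b, a), ?_, Sym2.eq_swap⟩
          simp only [mem_filter, mem_univ, true_and]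
          exact ⟨he.1.symm, h2⟩
    exact (Finset.card_le_card h1).trans Finset.card_image_le
  have hV : Nonempty V := by
    rw [← Fintype.card_pos_iff]
    omega
  have hnc : ¬ G.Preconnected := by
    intro hc
    have h1 : G.Connected := ⟨hc⟩
    have h2 := h1.card_vert_le_card_edgeSet_add_one
    rw [Nat.card_eq_fintype_card (α := V)] at h2
    omega
  unfold SimpleGraph.Preconnected at hnc
  push Not at hnc
  obtain ⟨u, v, huv⟩ := hnc
  intro hF
  have hm : ∀ a b, R a b → R (if G.Reachable u a then v else u)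
      (if G.Reachable u b then v else u) := by
    intro a b hab
    by_cases hne : a = b
    · subst hne
      exact h.1 _
    · have h1 : G.Adj a b := ⟨hne, Or.inl hab⟩
      have h2 : G.Reachable u a ↔ G.Reachable u b :=
        ⟨fun h3 => h3.trans h1.reachable, fun h3 => h3.trans h1.reachable.symm⟩
      simp only [h2]
      exact h.1 _
  obtain ⟨a, ha⟩ := hF (fun z => if G.Reachable u z then v else u) hm
  by_cases h1 : G.Reachable u a
  · simp only [h1, if_true] at ha
    subst ha
    exact huv h1
  · simp only [h1, if_false] at ha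
    subst ha
    exact h1 (SimpleGraph.Reachable.refl _)

lemma not_FPP_of_small {n : ℕ} (ch : MaxChain n) (i : ℕ) (hi : i ≤ n.choose 2)
    (h : i + 1 < n) : ¬ FPP (ch.ord i) := by
  apply not_FPP_of_num_lt (ch.isOrd i hi)
  rw [num_ord ch i hi, Fintype.card_fin]
  exact h

/-- The upper bound for the number of adjacencies. -/
lemma numAdj_le (m : ℕ) (ch : MaxChain (m + 2)) : numAdj ch ≤ m ^ 2 / 4 + 1 := by
  classical
  set N := (m + 2).choose 2 with hN
  have hN2 := mul_self_eq (m + 2)
  rw [← hN] at hN2
  unfold numAdj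
  have h1 : ∀ i ∈ (range N).filter fun i => ¬ FPP (ch.ord i) ∧ FPP (ch.ord (i + 1)),
      m ≤ i ∧ i < N ∧ m + 2 ≤ 2 * (N - i) := by
    intro i hi
    rw [mem_filter, mem_range] at hi
    obtain ⟨h2, h3, h4⟩ := hi
    refine ⟨?_, h2, ?_⟩
    · by_contra h5
      exact not_FPP_of_small ch (i + 1) (by omega) (by omega) h4
    · by_contra h5
      exact h3 (FPP_of_large ch i (by omega) (by omega))
  have h2 : ((range N).filter fun i => ¬ FPP (ch.ord i) ∧ FPP (ch.ord (i + 1))).card ≤
      (range (m ^ 2 / 4 + 1)).card := by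
    refine Finset.card_le_card_of_injOn (fun i => (i - m) / 2) ?_ ?_
    · intro i hi
      have h3 := h1 i hi
      simp only [coe_range, Set.mem_Iio]
      have h4 : (m + 2) * (m + 2) = m ^ 2 + 4 * m + 4 := by ring
      rw [h4] at hN2
      omega
    · intro i hi j hj hij
      have h3 := h1 i hi
      have h4 := h1 j hj
      simp only at hij
      rw [Finset.mem_coe, mem_filter] at hi hj
      by_contra hne
      have h5 : i + 1 = j ∨ j + 1 = i := by omega
      rcases h5 with h5 | h5
      · rw [← h5] at hj
        exact hj.2.1 hi.2.2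
      · rw [← h5] at hi
        exact hi.2.1 hj.2.2
  rw [card_range] at h2
  exact h2

end Pool.Agent.K9h39.Fpp
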