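import Pool.Agent.K9h39.Fpp.Bounds

/-!
The least number of members with the fixed point property.
-/

set_option autoImplicit false

namespace Pool.Agent.K9h39.Fpp

open Finset

/-- If each point is incomparable to exactly one other point, and the order lacks the fixed point
property, then each order with one comparable pair less has it. -/
lemma FPP_pred {V : Type} [Fintype V] [DecidableEq V] {R R' : V → V → Prop} (hR : IsOrd R)
    (hR' : IsOrd R') (hs : Step R R') (hinc : inc R' = Fintype.card V) (hF : ¬ FPP R') :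
    FPP R := by
  classical
  have h1 : ∀ x, ∃ y, ¬ R' x y ∧ ¬ R' y x := by
    intro x
    by_contra h2
    push Not at h2
    apply hF
    apply FPP_of_comparable hR' x
    intro y
    by_cases h3 : R' x y
    · exact Or.inl h3
    · exact Or.inr (h2 y h3)
  choose g hg1 hg2 using h1
  have huniq : ∀ a b, ¬ R' a b → ¬ R' b a → b = g a := by
    intro a b hab hba
    have h2 : (univ.image fun a => (a, g a)) = univ.filter fun p : V × V => ¬ R' p.1 p.2 ∧
        ¬ R' p.2 p.1 := by
      apply Finset.eq_of_subset_of_card_le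
      · intro p hp
        rw [mem_image] at hp
        obtain ⟨a, _, rfl⟩ := hp
        simp only [mem_filter, mem_univ, true_and]
        exact ⟨hg1 a, hg2 a⟩
      · rw [Finset.card_image_of_injective, Finset.card_univ, ← hinc]
        · rfl
        · intro a b h
          exact congrArg Prod.fst h
    have h3 : (a, b) ∈ (univ.image fun a => (a, g a)) := by
      rw [h2]
      simp only [mem_filter, mem_univ, true_and]
      exact ⟨hab, hba⟩
    rw [mem_image] at h3
    obtain ⟨c, _, hc⟩ := h3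
    have h4 := congrArg Prod.fst hc
    have h5 := congrArg Prod.snd hc
    simp only at h4 h5
    rw [← h4, h5]
  obtain ⟨x, y, hxy, hnR, hstep⟩ := hs
  have hRxy : R' x y := (hstep x y).2 (Or.inr ⟨rfl, rfl⟩)
  have hx' : g (g x) = x := (huniq (g x) x (hg2 x) (hg1 x)).symm
  have hy' : g (g y) = y := (huniq (g y) y (hg2 y) (hg1 y)).symm
  have ha : g x ≠ y := by
    intro h
    apply hg1 x
    rw [h]
    exact hRxy
  have ha2 : g x ≠ x := by
    intro h
    apply hg1 x
    rw [h]
    exact hR'.1 x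
  have ha3 : g y ≠ y := by
    intro h
    apply hg1 y
    rw [h]
    exact hR'.1 y
  have ha4 : g y ≠ x := by
    intro h
    apply hg2 y
    rw [h]
    exact hRxy
  have hb : R' (g x) y := by
    by_contra h
    by_cases h2 : R' y (g x)
    · exact hg1 x (hR'.2.2 _ _ _ hRxy h2)
    · have h3 := huniq (g x) y h h2
      rw [hx'] at h3
      exact hxy h3.symm
  have hc : R' (g x) (g y) := by
    by_contra h
    by_cases h2 : R' (g y) (g x)
    · exact hg2 y (hR'.2.2 _ _ _ h2 hb)
    · have h3 := huniq (g x) (g y) h h2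
      rw [hx'] at h3
      exact ha4 h3
  have hd : R (g x) (g y) := by
    rcases (hstep _ _).1 hc with h | h
    · exact h
    · exact absurd h.1 ha2
  intro f hf
  by_contra hne
  push Not at hne
  have hinc2 : ∀ a, a ≠ x → a ≠ y → f a = g a := by
    intro a hax hay
    have h2 := not_comparable hR f hf hne a
    apply huniq
    · intro h3
      rcases (hstep _ _).1 h3 with h | h
      · exact h2.1 h
      · exact hax h.1
    · intro h3
      rcases (hstep _ _).1 h3 with h | h
      · exact h2.2 h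
      · exact hay h.2
  have h2 := hf _ _ hd
  rw [hinc2 _ ha2 ha, hinc2 _ ha4 ha3, hx', hy'] at h2
  exact hnR h2

lemma numFPP_ge_half {n : ℕ} (ch : MaxChain n) (hn : 1 ≤ n) : (n + 1) / 2 ≤ numFPP ch := by
  classical
  have hN2 := mul_self_eq n
  have hle : n ≤ n.choose 2 + 2 := by
    rcases n with _ | _ | _ | n
    · omega
    · omega
    · omega
    · nlinarith
  have hle1 : (n + 1) / 2 ≤ n.choose 2 + 1 := by
    rcases n with _ | _ | _ | n
    · omega
    · omega
    · simp
    · omega
  unfold numFPP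
  rw [← Finset.card_range ((n + 1) / 2)]
  refine Finset.card_le_card_of_injOn (fun j => n.choose 2 - j) ?_ ?_
  · intro j hj
    rw [Finset.mem_coe, mem_range] at hj
    rw [Finset.mem_coe, mem_filter, mem_range]
    beta_reduce
    exact ⟨by omega, FPP_of_large ch _ (by omega) (by omega)⟩
  · intro i hi j hj hij
    rw [Finset.mem_coe, mem_range] at hi hj
    simp only at hij
    omega

lemma numFPP_ge {n : ℕ} (ch : MaxChain n) (hn : 1 ≤ n) (hn2 : n ≠ 2) :
    n / 2 + 1 ≤ numFPP ch := by
  classical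
  by_cases hpar : n % 2 = 1
  · have h1 := numFPP_ge_half ch hn
    omega
  · have hN2 := mul_self_eq n
    have hn4 : 4 ≤ n := by omega
    have hle : n + 2 ≤ n.choose 2 := by nlinarith
    have key : ∃ i0, i0 ≤ n.choose 2 - n / 2 ∧ FPP (ch.ord i0) := by
      by_cases hF : FPP (ch.ord (n.choose 2 - n / 2))
      · exact ⟨_, le_rfl, hF⟩
      · refine ⟨n.choose 2 - n / 2 - 1, by omega, ?_⟩
        have hs := ch.step (n.choose 2 - n / 2 - 1) (by omega)
        rw [show n.choose 2 - n / 2 - 1 + 1 = n.choose 2 - n / 2 by omega] at hs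
        refine FPP_pred (ch.isOrd _ (by omega)) (ch.isOrd _ (by omega)) hs ?_ hF
        rw [inc_ord ch _ (by omega), Fintype.card_fin]
        omega
    obtain ⟨i0, hi0, hF0⟩ := key
    unfold numFPP
    rw [← Finset.card_range (n / 2 + 1)]
    refine Finset.card_le_card_of_injOn (fun j => if j = n / 2 then i0 else n.choose 2 - j) ?_ ?_
    · intro j hj
      rw [Finset.mem_coe, mem_range] at hj
      rw [Finset.mem_coe, mem_filter, mem_range]
      by_cases h : j = n / 2
      · simp only [h, if_true]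
        exact ⟨by omega, hF0⟩
      · simp only [h, if_false]
        exact ⟨by omega, FPP_of_large ch _ (by omega) (by omega)⟩
    · intro i hi j hj hij
      rw [Finset.mem_coe, mem_range] at hi hj
      simp only at hij
      split_ifs at hij <;> omega

/-- The final order lacking the fixed point property. -/
def EE (n : ℕ) (a b : Fin n) : Prop :=
  a = b ∨ (a.val < b.val ∧ ¬ (a.val % 2 = 0 ∧ b.val = a.val + 1 ∧ b.val < 2 * ((n - 1) / 2)) ∧
    a.val + 1 ≠ 2 * ((n - 1) / 2))

/-- The order `EE` with the last point isolated. -/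
def MM (n : ℕ) (a b : Fin n) : Prop := a = b ∨ (EE n a b ∧ b.val + 1 < n)

lemma isOrd_EE (n : ℕ) : IsOrd (EE n) := by
  refine ⟨fun a => Or.inl rfl, ?_, ?_⟩
  · intro a b
    unfold EE
    rw [Fin.ext_iff, Fin.ext_iff]
    omega
  · intro a b c
    unfold EE
    rw [Fin.ext_iff, Fin.ext_iff, Fin.ext_iff]
    omega

lemma isOrd_MM (n : ℕ) : IsOrd (MM n) := by
  refine ⟨fun a => Or.inl rfl, ?_, ?_⟩
  · rintro a b (h | h) (h' | h')
    · exact h
    · exact h
    · exact h'.symm
    · exact (isOrd_EE n).2.1 _ _ h.1 h'.1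
  · rintro a b c (rfl | h) (rfl | h')
    · exact Or.inl rfl
    · exact Or.inr h'
    · exact Or.inr h
    · exact Or.inr ⟨(isOrd_EE n).2.2 _ _ _ h.1 h'.1, h'.2⟩

/-- A map without fixed points. -/
def fval (K a : ℕ) : ℕ :=
  if a < K then (if a % 2 = 0 then a + 1 else a - 1) else K - 1

lemma not_FPP_between {n : ℕ} (hn : 3 ≤ n) {R : Fin n → Fin n → Prop} (hR : IsOrd R)
    (h1 : ∀ a b, MM n a b → R a b) (h2 : ∀ a b, R a b → EE n a b) : ¬ FPP R := by
  intro h
  have hlt : ∀ a : Fin n, fval (2 * ((n - 1) / 2)) a.val < n := by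
    intro a
    unfold fval
    split_ifs <;> omega
  obtain ⟨a, ha⟩ := h (fun a => ⟨fval (2 * ((n - 1) / 2)) a.val, hlt a⟩) (by
    intro a b hab
    have h3 := h2 _ _ hab
    by_cases hab2 : a = b
    · subst hab2
      exact hR.1 _
    apply h1
    right
    rw [Fin.ext_iff] at hab2
    unfold EE at h3 ⊢
    rw [Fin.ext_iff] at h3 ⊢
    simp only
    unfold fval
    split_ifs <;> omega)
  rw [Fin.ext_iff] at ha
  simp only at ha
  unfold fval at ha
  split_ifs at ha <;> omega

lemma not_FPP_le_MM {n : ℕ} (hn : 3 ≤ n) {R : Fin n → Fin n → Prop} (hR : IsOrd R)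
    (h2 : ∀ a b, R a b → MM n a b) : ¬ FPP R := by
  refine not_FPP_of_isolated hR.1 (⟨0, by omega⟩ : Fin n) (⟨n - 1, by omega⟩ : Fin n) ?_ ?_ ?_
  · intro h1
    have := congrArg Fin.val h1
    simp only at this
    omega
  · intro w hw
    have h1 := h2 _ _ hw
    unfold MM EE at h1
    rw [Fin.ext_iff] at h1 ⊢
    simp only at h1 ⊢
    omega
  · intro w hw
    have h1 := h2 _ _ hw
    unfold MM EE at h1
    rw [Fin.ext_iff] at h1 ⊢
    simp only at h1 ⊢
    omega

lemma num_EE {n : ℕ} (hn : 3 ≤ n) : num (fun a b : Fin n => a ≤ b) ≤ num (EE n) + (n / 2 + 1) := by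
  classical
  unfold num
  have h2 : (univ.filter fun p : Fin n × Fin n => p.1.val < p.2.val ∧ ¬ EE n p.1 p.2).card ≤
      n / 2 + 1 := by
    rw [← Finset.card_range (n / 2 + 1)]
    refine Finset.card_le_card_of_injOn
      (fun p => if p.2.val < 2 * ((n - 1) / 2) then p.2.val / 2 else p.2.val - (n - 1) / 2) ?_ ?_
    · rintro ⟨a, b⟩ hp
      rw [Finset.mem_coe, mem_filter] at hp
      rw [Finset.mem_coe, mem_range]
      simp only
      have h3 := b.isLt
      split_ifs <;> omega
    · rintro ⟨a, b⟩ hp ⟨c, d⟩ hq heq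
      rw [Finset.mem_coe, mem_filter] at hp hq
      obtain ⟨_, hp1, hp2⟩ := hp
      obtain ⟨_, hq1, hq2⟩ := hq
      simp only at heq hp1 hq1
      unfold EE at hp2 hq2
      simp only [Fin.ext_iff] at hp2 hq2
      rw [Prod.mk.injEq, Fin.ext_iff, Fin.ext_iff]
      have h3 := b.isLt
      have h4 := d.isLt
      split_ifs at heq <;> omega
  refine le_trans (Finset.card_le_card (t :=
      (univ.filter fun p : Fin n × Fin n => p.1 ≠ p.2 ∧ EE n p.1 p.2) ∪
      (univ.filter fun p : Fin n × Fin n => p.1.val < p.2.val ∧ ¬ EE n p.1 p.2)) ?_)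
    ((Finset.card_union_le _ _).trans (Nat.add_le_add_left h2 _))
  rintro ⟨a, b⟩ hp
  simp only [mem_filter, mem_univ, true_and, mem_union] at hp ⊢
  by_cases h : EE n a b
  · exact Or.inl ⟨hp.1, h⟩
  · refine Or.inr ⟨?_, h⟩
    have h2 := hp.1
    rw [ne_eq, Fin.ext_iff] at h2
    have h3 := Fin.le_def.1 hp.2
    omega

lemma stF_le {V : Type} (R R' : V → V → Prop) : stF R R' ≤ 1 := by
  unfold stF
  split_ifs <;> omega

lemma stF_zero {V : Type} {R R' : V → V → Prop} (h : ¬ FPP R') : stF R R' = 0 := by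
  unfold stF
  rw [if_neg h]

lemma isOrd_le' (n : ℕ) : IsOrd (fun a b : Fin n => a ≤ b) :=
  ⟨fun _ => le_rfl, fun _ _ h1 h2 => le_antisymm h1 h2, fun _ _ _ h1 h2 => le_trans h1 h2⟩

lemma not_FPP_eq {n : ℕ} (hn : 2 ≤ n) (ch : MaxChain n) : ¬ FPP (ch.ord 0) :=
  not_FPP_of_small ch 0 (Nat.zero_le _) (by omega)

/-- A maximal chain with few members that have the fixed point property. -/
lemma exists_chain_few {n : ℕ} (hn : 3 ≤ n) : ∃ ch : MaxChain n, numFPP ch ≤ n / 2 + 1 := by
  classical
  obtain ⟨k1, c1, h1, h1'⟩ := Path.exists_interp (st := stF) 0 (isOrd_eq (V := Fin n))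
    (isOrd_MM n) (fun a b h => Or.inl h) (by
      intro R1 R2 _ h2 _ _ h3
      rw [stF_zero (not_FPP_le_MM hn h2 h3)])
  obtain ⟨k2, c2, h2, h2'⟩ := Path.exists_interp (st := stF) 0 (isOrd_MM n)
    (isOrd_EE n) (by
      rintro a b (rfl | h)
      · exact Or.inl rfl
      · exact h.1) (by
      intro R1 R2 _ h2 h3 h4 h5
      rw [stF_zero (not_FPP_between hn h2 (fun a b h => h4 _ _ (h3 _ _ h)) h5)])
  obtain ⟨k3, c3, h3, h3'⟩ := Path.exists_interp (st := stF) 1 (isOrd_EE n)
    (isOrd_le' n) (by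
      rintro a b (rfl | h)
      · exact le_rfl
      · exact Fin.le_def.2 h.1.le) (by
      intro R1 R2 _ _ _ _ _
      exact stF_le _ _)
  have hk3 := h3.num
  have hk3' := num_EE hn
  have hP := (h1.trans h2).trans h3
  obtain ⟨_, ch, hch⟩ := hP.exists_chain (isOrd_le' n) (fun a b => le_total a b)
  refine ⟨ch, ?_⟩
  rw [numFPP_eq, hch, if_neg (not_FPP_eq (by omega) ch)]
  omega

lemma exists_chain_any (n : ℕ) : ∃ ch : MaxChain n,
    ∑ i ∈ range (n.choose 2), stF (ch.ord i) (ch.ord (i + 1)) ≤ n.choose 2 := by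
  obtain ⟨k3, c3, h3, h3'⟩ := Path.exists_interp (st := stF) 1 (isOrd_eq (V := Fin n))
    (isOrd_le' n) (by
      rintro a b rfl
      exact le_rfl) (by
      intro R1 R2 _ _ _ _ _
      exact stF_le _ _)
  obtain ⟨hk, ch, hch⟩ := h3.exists_chain (isOrd_le' n) (fun a b => le_total a b)
  refine ⟨ch, ?_⟩
  rw [hch]
  omega

end Pool.Agent.K9h39.Fpp
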