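import Pool.Agent.K9h39.Fpp.Basic

/-!
Construction of maximal chains of order relations.
-/

set_option autoImplicit false

namespace Pool.Agent.K9h39.Fpp

open Finset

/-- There is a sequence of `k` steps from `R` to `R'` through orders, on which the sum of the
statistic `st` is `c`. -/
inductive Path {V : Type} (st : (V → V → Prop) → (V → V → Prop) → ℕ) :
    (V → V → Prop) → (V → V → Prop) → ℕ → ℕ → Prop
  | refl (R : V → V → Prop) : Path st R R 0 0
  | snoc {R R' R'' : V → V → Prop} {k c : ℕ} : Path st R R' k c → IsOrd R'' → Step R' R'' →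
      Path st R R'' (k + 1) (c + st R' R'')

section

variable {V : Type} {st : (V → V → Prop) → (V → V → Prop) → ℕ}

lemma Path.single {R R' : V → V → Prop} (h : IsOrd R') (hs : Step R R') :
    Path st R R' 1 (st R R') := by
  have h1 := Path.snoc (Path.refl (st := st) R) h hs
  simpa using h1

lemma Path.trans {R R' R'' : V → V → Prop} {k c k' c' : ℕ} (h : Path st R R' k c)
    (h' : Path st R' R'' k' c') : Path st R R'' (k + k') (c + c') := by
  induction h' with
  | refl => simpa using h
  | snoc _ h2 h3 ih =>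
    have h4 := Path.snoc ih h2 h3
    rw [← add_assoc, ← add_assoc]
    exact h4

lemma Path.num [Fintype V] [DecidableEq V] {R R' : V → V → Prop} {k c : ℕ}
    (h : Path st R R' k c) : num R' = num R + k := by
  induction h with
  | refl => simp
  | snoc _ _ h3 ih => rw [num_step h3, ih, add_assoc]

/-- One can pass from an order to a larger one. -/
lemma Path.interp [Fintype V] [DecidableEq V] (M : ℕ) {R' : V → V → Prop} (h' : IsOrd R') :
    ∀ (d : ℕ) (R : V → V → Prop), IsOrd R → (∀ a b, R a b → R' a b) → Fpp.num R' ≤ Fpp.num R + d →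
    (∀ R1 R2, IsOrd R1 → IsOrd R2 → (∀ a b, R a b → R1 a b) → (∀ a b, R1 a b → R2 a b) →
      (∀ a b, R2 a b → R' a b) → st R1 R2 ≤ M) →
    ∃ k c, Path st R R' k c ∧ c ≤ k * M := by
  classical
  intro d
  induction d with
  | zero =>
    intro R hR hle hnum hst
    have h1 : R = R' := by
      by_contra hne
      have h2 : ∃ a b, R' a b ∧ ¬ R a b := by
        by_contra h3
        push Not at h3
        apply hne
        funext a b
        exact propext ⟨hle a b, h3 a b⟩
      obtain ⟨a, b, h3, h4⟩ := h2
      have h5 : Fpp.num R < Fpp.num R' := by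
        unfold Fpp.num
        apply Finset.card_lt_card
        rw [Finset.ssubset_iff_of_subset]
        · refine ⟨(a, b), ?_, ?_⟩
          · simp only [mem_filter, mem_univ, true_and]
            refine ⟨?_, h3⟩
            rintro rfl
            exact h4 (hR.1 _)
          · simp [h4]
        · rintro ⟨x, y⟩ hz
          simp only [mem_filter, mem_univ, true_and] at hz ⊢
          exact ⟨hz.1, hle _ _ hz.2⟩
      omega
    subst h1
    exact ⟨0, 0, Path.refl _, by simp⟩
  | succ d ih =>
    intro R hR hle hnum hst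
    by_cases hne : ∃ a b, R' a b ∧ ¬ R a b
    · obtain ⟨R'', h1, h2, h3, h4⟩ := exists_step hR h' hle hne
      obtain ⟨k, c, h5, h6⟩ := ih R'' h1 h4 (by rw [num_step h2]; omega)
        (fun R1 R2 g1 g2 g3 g4 g5 => hst R1 R2 g1 g2 (fun a b g => g3 a b (h3 a b g)) g4 g5)
      refine ⟨1 + k, st R R'' + c, (Path.single h1 h2).trans h5, ?_⟩
      have h7 := hst R R'' hR h1 (fun a b g => g) h3 h4
      rw [add_mul, one_mul]
      omega
    · push Not at hne
      have h1 : R = R' := by
        funext a b
        exact propext ⟨hle a b, hne a b⟩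
      subst h1
      exact ⟨0, 0, Path.refl _, by simp⟩

lemma Path.exists_interp [Fintype V] [DecidableEq V] (M : ℕ) {R R' : V → V → Prop}
    (hR : IsOrd R) (h' : IsOrd R') (hle : ∀ a b, R a b → R' a b)
    (hst : ∀ R1 R2, IsOrd R1 → IsOrd R2 → (∀ a b, R a b → R1 a b) → (∀ a b, R1 a b → R2 a b) →
      (∀ a b, R2 a b → R' a b) → st R1 R2 ≤ M) :
    ∃ k c, Path st R R' k c ∧ c ≤ k * M :=
  Path.interp M h' (Fpp.num R') R hR hle (by omega) hst

lemma Path.exists_fun {R R' : V → V → Prop} {k c : ℕ} (h : Path st R R' k c) :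
    ∃ ord : ℕ → V → V → Prop, ord 0 = R ∧ ord k = R' ∧
      (∀ i < k, IsOrd (ord (i + 1)) ∧ Step (ord i) (ord (i + 1))) ∧
      ∑ i ∈ range k, st (ord i) (ord (i + 1)) = c := by
  induction h with
  | refl => exact ⟨fun _ => R, rfl, rfl, by simp, by simp⟩
  | @snoc R' R'' k c h1 h2 h3 ih =>
    obtain ⟨ord, g1, g2, g3, g4⟩ := ih
    refine ⟨fun i => if i ≤ k then ord i else R'', ?_, ?_, ?_, ?_⟩
    · simp [g1]
    · simp
    · intro i hi
      by_cases hik : i < k
      · have h4 : i + 1 ≤ k := hik
        have h5 : i ≤ k := hik.le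
        simp only [h4, h5, if_true]
        exact g3 i hik
      · have h4 : i = k := by omega
        subst h4
        simp only [le_refl, if_true, Nat.not_succ_le_self, if_false]
        rw [g2]
        exact ⟨h2, h3⟩
    · rw [Finset.sum_range_succ]
      congr 1
      · rw [← g4]
        refine Finset.sum_congr rfl fun i hi => ?_
        rw [mem_range] at hi
        have h4 : i + 1 ≤ k := hi
        have h5 : i ≤ k := hi.le
        simp only [h4, h5, if_true]
      · simp only [le_refl, if_true, Nat.not_succ_le_self, if_false]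
        rw [g2]

end

lemma isOrd_eq {V : Type} : IsOrd (fun a b : V => a = b) :=
  ⟨fun _ => rfl, fun _ _ h _ => h, fun _ _ _ h1 h2 => h1.trans h2⟩

lemma num_of_total {n : ℕ} {L : Fin n → Fin n → Prop} (h : IsOrd L)
    (ht : ∀ a b, L a b ∨ L b a) : num L = n.choose 2 := by
  classical
  have h1 := inc_add h
  have h2 : inc L = 0 := by
    unfold inc
    rw [Finset.card_eq_zero, Finset.filter_eq_empty_iff]
    rintro ⟨a, b⟩ _ ⟨h3, h4⟩
    rcases ht a b with h5 | h5
    · exact h3 h5
    · exact h4 h5
  rw [h2, Fintype.card_fin] at h1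
  rw [Nat.choose_two_right]
  rcases n with _ | n
  · simp at h1 ⊢
    omega
  · have h3 : (n + 1) * (n + 1) = (n + 1) * n + (n + 1) := by ring
    have h4 : 2 * num L = (n + 1) * n := by omega
    simp only [Nat.add_sub_cancel]
    omega

/-- A path from the discrete order to a linear order gives a maximal chain. -/
lemma Path.exists_chain {n : ℕ}
    {st : (Fin n → Fin n → Prop) → (Fin n → Fin n → Prop) → ℕ} {L : Fin n → Fin n → Prop}
    {k c : ℕ} (h : Path st (fun a b => a = b) L k c) (hL : IsOrd L)
    (ht : ∀ a b, L a b ∨ L b a) :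
    k = n.choose 2 ∧ ∃ ch : MaxChain n,
      ∑ i ∈ range (n.choose 2), st (ch.ord i) (ch.ord (i + 1)) = c := by
  have hk : k = n.choose 2 := by
    have h1 := h.num
    rw [num_of_total hL ht, num_eq_zero (fun a b => Iff.rfl)] at h1
    omega
  refine ⟨hk, ?_⟩
  obtain ⟨ord, g1, g2, g3, g4⟩ := h.exists_fun
  subst hk
  refine ⟨⟨ord, ?_, ?_, fun i hi => (g3 i hi).2⟩, g4⟩
  · intro i hi
    rcases i with _ | i
    · rw [g1]
      exact isOrd_eq
    · exact (g3 i hi).1
  · intro a b
    rw [g1]

open Classical in
/-- The statistic that counts the orders with the fixed point property. -/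
noncomputable def stF {V : Type} (_ R' : V → V → Prop) : ℕ := if FPP R' then 1 else 0

open Classical in
/-- The statistic that counts the adjacencies. -/
noncomputable def stA {V : Type} (R R' : V → V → Prop) : ℕ := if ¬ FPP R ∧ FPP R' then 1 else 0

lemma numAdj_eq {n : ℕ} (ch : MaxChain n) :
    numAdj ch = ∑ i ∈ range (n.choose 2), stA (ch.ord i) (ch.ord (i + 1)) := by
  classical
  unfold numAdj stA
  rw [Finset.card_filter]

open Classical in
lemma numFPP_eq {n : ℕ} (ch : MaxChain n) :
    numFPP ch = (∑ i ∈ range (n.choose 2), stF (ch.ord i) (ch.ord (i + 1))) +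
      (if FPP (ch.ord 0) then 1 else 0) := by
  unfold numFPP stF
  rw [Finset.card_filter, Finset.sum_range_succ']

end Pool.Agent.K9h39.Fpp
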