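import Pool.Agent.K9h39.Fpp.Path

/-!
A maximal chain with many adjacencies.
-/

set_option autoImplicit false

namespace Pool.Agent.K9h39.Fpp

open Finset

/-- The shift by two. -/
def up {m : ℕ} (i : Fin m) : Fin (m + 2) := ⟨i.val + 2, by omega⟩

/-- The order `R`, shifted by two, with two incomparable points `0` and `1` below it. -/
def susp {m : ℕ} (R : Fin m → Fin m → Prop) (a b : Fin (m + 2)) : Prop :=
  a = b ∨ (a.val < 2 ∧ 2 ≤ b.val) ∨ ∃ i j : Fin m, a = up i ∧ b = up j ∧ R i j

lemma up_inj {m : ℕ} {i j : Fin m} (h : up i = up j) : i = j := by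
  unfold up at h
  simp only [Fin.mk.injEq] at h
  exact Fin.ext (by omega)

lemma exists_up {m : ℕ} (a : Fin (m + 2)) (h : 2 ≤ a.val) : ∃ i, a = up i :=
  ⟨⟨a.val - 2, by omega⟩, by
    apply Fin.ext
    simp only [up]
    omega⟩

lemma up_val {m : ℕ} (i : Fin m) : (up i).val = i.val + 2 := rfl

lemma susp_up {m : ℕ} {R : Fin m → Fin m → Prop} (hR : IsOrd R) (i j : Fin m) :
    susp R (up i) (up j) ↔ R i j := by
  constructor
  · rintro (h | ⟨h, _⟩ | ⟨i', j', h1, h2, h3⟩)
    · rw [up_inj h]
      exact hR.1 _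
    · rw [up_val] at h
      omega
    · rw [up_inj h1, up_inj h2]
      exact h3
  · intro h
    exact Or.inr (Or.inr ⟨i, j, rfl, rfl, h⟩)

lemma isOrd_susp {m : ℕ} {R : Fin m → Fin m → Prop} (hR : IsOrd R) : IsOrd (susp R) := by
  refine ⟨fun a => Or.inl rfl, ?_, ?_⟩
  · rintro a b (h | ⟨h1, h2⟩ | ⟨i, j, rfl, rfl, h⟩) (h' | ⟨h1', h2'⟩ | ⟨i', j', h1', h2', h'⟩)
    · exact h
    · exact h
    · exact h
    · exact h'.symm
    · omega
    · subst h2'
      rw [up_val] at h1
      omega
    · exact h'.symm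
    · rw [up_val] at h1'
      omega
    · rw [← up_inj h1', ← up_inj h2'] at h'
      rw [hR.2.1 _ _ h h']
  · rintro a b c (rfl | ⟨h1, h2⟩ | ⟨i, j, rfl, rfl, h⟩) (rfl | ⟨h1', h2'⟩ | ⟨i', j', h1', h2', h'⟩)
    · exact Or.inl rfl
    · exact Or.inr (Or.inl ⟨h1', h2'⟩)
    · exact Or.inr (Or.inr ⟨i', j', h1', h2', h'⟩)
    · exact Or.inr (Or.inl ⟨h1, h2⟩)
    · omega
    · refine Or.inr (Or.inl ⟨h1, ?_⟩)
      rw [h2', up_val]
      omega
    · exact Or.inr (Or.inr ⟨i, j, rfl, rfl, h⟩)
    · rw [up_val] at h1'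
      omega
    · refine Or.inr (Or.inr ⟨i, j', rfl, h2', ?_⟩)
      rw [← up_inj h1'] at h'
      exact hR.2.2 _ _ _ h h'

lemma FPP_susp {m : ℕ} {R : Fin m → Fin m → Prop} (hR : IsOrd R) : FPP (susp R) ↔ FPP R := by
  constructor
  · intro h f hf
    have hg : ∀ a b, susp R a b → susp R
        (if h : 2 ≤ a.val then up (f ⟨a.val - 2, by omega⟩) else ⟨1 - a.val, by omega⟩)
        (if h : 2 ≤ b.val then up (f ⟨b.val - 2, by omega⟩) else ⟨1 - b.val, by omega⟩) := by
      rintro a b (rfl | ⟨h1, h2⟩ | ⟨i, j, rfl, rfl, h3⟩)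
      · exact Or.inl rfl
      · rw [dif_neg (by omega), dif_pos h2]
        right
        left
        rw [up_val]
        simp only
        omega
      · rw [dif_pos (by rw [up_val]; omega), dif_pos (by rw [up_val]; omega)]
        have h4 : (⟨(up i).val - 2, by rw [up_val]; omega⟩ : Fin m) = i :=
          Fin.ext (show i.val + 2 - 2 = i.val by omega)
        have h5 : (⟨(up j).val - 2, by rw [up_val]; omega⟩ : Fin m) = j :=
          Fin.ext (show j.val + 2 - 2 = j.val by omega)
        rw [h4, h5, susp_up hR]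
        exact hf _ _ h3
    obtain ⟨a, ha⟩ := h _ hg
    by_cases h2 : 2 ≤ a.val
    · obtain ⟨i, rfl⟩ := exists_up a h2
      rw [dif_pos h2] at ha
      have h4 : (⟨(up i).val - 2, by rw [up_val]; omega⟩ : Fin m) = i :=
        Fin.ext (show i.val + 2 - 2 = i.val by omega)
      rw [h4] at ha
      exact ⟨i, up_inj ha⟩
    · rw [dif_neg h2] at ha
      have := congrArg Fin.val ha
      simp only at this
      omega
  · intro h g hg
    by_contra hne
    push Not at hne
    have hO := isOrd_susp hR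
    have h1 : ∀ i : Fin m, 2 ≤ (g (up i)).val := by
      intro i
      by_contra h2
      exact (not_comparable hO g hg hne (up i)).2
        (Or.inr (Or.inl ⟨by omega, by rw [up_val]; omega⟩))
    choose f hf using fun i => exists_up (g (up i)) (h1 i)
    obtain ⟨i, hi⟩ := h f (by
      intro a b hab
      have h2 := hg (up a) (up b) ((susp_up hR a b).2 hab)
      rw [hf, hf, susp_up hR] at h2
      exact h2)
    apply hne (up i)
    rw [hf, hi]

lemma step_susp {m : ℕ} {R R' : Fin m → Fin m → Prop} (hR : IsOrd R) (h : Step R R') :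
    Step (susp R) (susp R') := by
  obtain ⟨x, y, hxy, h1, h2⟩ := h
  refine ⟨up x, up y, fun h3 => hxy (up_inj h3), ?_, ?_⟩
  · rw [susp_up hR]
    exact h1
  · intro a b
    constructor
    · rintro (h3 | h3 | ⟨i, j, rfl, rfl, h3⟩)
      · exact Or.inl (Or.inl h3)
      · exact Or.inl (Or.inr (Or.inl h3))
      · rcases (h2 i j).1 h3 with h4 | ⟨rfl, rfl⟩
        · exact Or.inl (Or.inr (Or.inr ⟨i, j, rfl, rfl, h4⟩))
        · exact Or.inr ⟨rfl, rfl⟩
    · rintro ((h3 | h3 | ⟨i, j, rfl, rfl, h3⟩) | ⟨rfl, rfl⟩)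
      · exact Or.inl h3
      · exact Or.inr (Or.inl h3)
      · exact Or.inr (Or.inr ⟨i, j, rfl, rfl, (h2 i j).2 (Or.inl h3)⟩)
      · exact Or.inr (Or.inr ⟨x, y, rfl, rfl, (h2 x y).2 (Or.inr ⟨rfl, rfl⟩)⟩)

lemma Path.isOrd {V : Type} {st : (V → V → Prop) → (V → V → Prop) → ℕ} {R R' : V → V → Prop}
    {k c : ℕ} (h : Path st R R' k c) (hR : IsOrd R) : IsOrd R' := by
  induction h with
  | refl => exact hR
  | snoc _ h2 _ _ => exact h2

lemma path_susp {m : ℕ} {R R' : Fin m → Fin m → Prop} {k c : ℕ} (hR : IsOrd R)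
    (h : Path stA R R' k c) : Path stA (susp R) (susp R') k c := by
  induction h with
  | refl => exact Path.refl _
  | @snoc R' R'' k c h1 h2 h3 ih =>
    have h4 := Path.snoc ih (isOrd_susp h2) (step_susp (h1.isOrd hR) h3)
    have h5 : stA (susp R') (susp R'') = stA R' R'' := by
      unfold stA
      rw [FPP_susp h2, FPP_susp (h1.isOrd hR)]
    rw [h5] at h4
    exact h4

/-- The order on `{0, ..., m + 1}` with `0 < 2, ..., m + 1` and `1` isolated. -/
def star (m : ℕ) (a b : Fin (m + 2)) : Prop := a = b ∨ (a.val = 0 ∧ 2 ≤ b.val)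

/-- The orders of stage A. -/
def BB (m t : ℕ) (a b : Fin (m + 2 + 2)) : Prop :=
  a = b ∨ (a.val = 0 ∧ 2 ≤ b.val) ∨ (a.val = 1 ∧ b.val = 2) ∨
    ((a.val = 1 ∨ a.val = 2) ∧ 4 ≤ b.val ∧ b.val < 4 + t)

/-- The orders of stage A. -/
def CC (m t : ℕ) (a b : Fin (m + 2 + 2)) : Prop :=
  a = b ∨ (a.val = 0 ∧ 2 ≤ b.val) ∨ (a.val = 1 ∧ b.val = 2) ∨
    ((a.val = 1 ∨ a.val = 2) ∧ 4 ≤ b.val ∧ b.val < 4 + t) ∨ (a.val = 1 ∧ b.val = 4 + t)

lemma isOrd_star (m : ℕ) : IsOrd (star m) := by
  refine ⟨fun a => Or.inl rfl, ?_, ?_⟩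
  · intro a b
    unfold star
    rw [Fin.ext_iff, Fin.ext_iff]
    omega
  · intro a b c
    unfold star
    rw [Fin.ext_iff, Fin.ext_iff, Fin.ext_iff]
    omega

lemma isOrd_BB (m t : ℕ) : IsOrd (BB m t) := by
  refine ⟨fun a => Or.inl rfl, ?_, ?_⟩
  · intro a b
    unfold BB
    rw [Fin.ext_iff, Fin.ext_iff]
    omega
  · intro a b c
    unfold BB
    rw [Fin.ext_iff, Fin.ext_iff, Fin.ext_iff]
    omega

lemma isOrd_CC (m t : ℕ) : IsOrd (CC m t) := by
  refine ⟨fun a => Or.inl rfl, ?_, ?_⟩
  · intro a b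
    unfold CC
    rw [Fin.ext_iff, Fin.ext_iff]
    omega
  · intro a b c
    unfold CC
    rw [Fin.ext_iff, Fin.ext_iff, Fin.ext_iff]
    omega

lemma not_FPP_of_le_star {m : ℕ} {R : Fin (m + 2) → Fin (m + 2) → Prop} (hR : IsOrd R)
    (h : ∀ a b, R a b → star m a b) : ¬ FPP R := by
  refine not_FPP_of_isolated hR.1 (⟨0, by omega⟩ : Fin (m + 2)) (⟨1, by omega⟩ : Fin (m + 2))
    ?_ ?_ ?_
  · intro h1
    have := congrArg Fin.val h1
    simp at this
  · intro w hw
    have h1 := h _ _ hw
    unfold star at h1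
    rw [Fin.ext_iff] at h1 ⊢
    simp only at h1 ⊢
    omega
  · intro w hw
    have h1 := h _ _ hw
    unfold star at h1
    rw [Fin.ext_iff] at h1 ⊢
    simp only at h1 ⊢
    omega

lemma FPP_BB (m t : ℕ) : FPP (BB m t) := by
  intro f hf
  by_contra hne
  push Not at hne
  have hO := isOrd_BB m t
  have h0 := not_comparable hO f hf hne ⟨0, by omega⟩
  have h2 := not_comparable hO f hf hne ⟨2, by omega⟩
  have h02 := hf ⟨0, by omega⟩ ⟨2, by omega⟩ (by unfold BB; simp)
  unfold BB at h0 h2 h02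
  simp only [Fin.ext_iff, true_and, and_true, or_true] at h0 h2 h02
  omega

/-- A map without fixed points. -/
def gval (t a : ℕ) : ℕ :=
  if a = 0 then 1 else if a = 1 then 0 else
    if a = 2 ∨ (4 ≤ a ∧ a < 4 + t) then 4 + t else 2

lemma gval_lt (m t a : ℕ) (ht : t < m) : gval t a < m + 2 + 2 := by
  unfold gval
  split_ifs <;> omega

lemma not_FPP_CC (m t : ℕ) (ht : t < m) : ¬ FPP (CC m t) := by
  intro h
  obtain ⟨a, ha⟩ := h (fun a => ⟨gval t a.val, gval_lt m t a.val ht⟩) (by
      intro a b hab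
      unfold CC at hab ⊢
      rw [Fin.ext_iff] at hab
      simp only [Fin.mk.injEq]
      unfold gval
      split_ifs <;> omega)
  rw [Fin.ext_iff] at ha
  simp only at ha
  unfold gval at ha
  split_ifs at ha <;> omega

lemma step_star_BB (m : ℕ) : Step (star (m + 2)) (BB m 0) := by
  refine ⟨⟨1, by omega⟩, ⟨2, by omega⟩, ?_, ?_, ?_⟩
  · simp
  · unfold star
    simp
  · intro a b
    unfold star BB
    simp only [Fin.ext_iff]
    omega

lemma step_BB_CC (m t : ℕ) (ht : t < m) : Step (BB m t) (CC m t) := by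
  refine ⟨⟨1, by omega⟩, ⟨4 + t, by omega⟩, ?_, ?_, ?_⟩
  · simp only [ne_eq, Fin.mk.injEq]
    omega
  · unfold BB
    simp only [Fin.ext_iff]
    omega
  · intro a b
    unfold BB CC
    simp only [Fin.ext_iff]
    omega

lemma step_CC_BB (m t : ℕ) (ht : t < m) : Step (CC m t) (BB m (t + 1)) := by
  refine ⟨⟨2, by omega⟩, ⟨4 + t, by omega⟩, ?_, ?_, ?_⟩
  · simp only [ne_eq, Fin.mk.injEq]
    omega
  · unfold CC
    simp only [Fin.ext_iff]
    omega
  · intro a b
    unfold BB CC
    simp only [Fin.ext_iff]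
    omega

lemma susp_star (m : ℕ) (a b : Fin (m + 2 + 2)) : susp (star m) a b ↔
    a.val = b.val ∨ (a.val < 2 ∧ 2 ≤ b.val) ∨ (a.val = 2 ∧ 4 ≤ b.val) := by
  unfold susp star
  constructor
  · rintro (h | h | ⟨i, j, rfl, rfl, h⟩)
    · exact Or.inl (congrArg Fin.val h)
    · exact Or.inr (Or.inl h)
    · rw [Fin.ext_iff] at h
      rw [up_val, up_val]
      omega
  · intro h
    by_cases h1 : 2 ≤ a.val
    · by_cases h2 : 2 ≤ b.val
      · obtain ⟨i, rfl⟩ := exists_up a h1
        obtain ⟨j, rfl⟩ := exists_up b h2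
        rw [up_val, up_val] at h
        refine Or.inr (Or.inr ⟨i, j, rfl, rfl, ?_⟩)
        rw [Fin.ext_iff]
        omega
      · omega
    · rw [Fin.ext_iff]
      omega

lemma step_BB_susp (m : ℕ) : Step (BB m m) (susp (star m)) := by
  refine ⟨⟨1, by omega⟩, ⟨3, by omega⟩, ?_, ?_, ?_⟩
  · simp
  · unfold BB
    simp only [Fin.ext_iff]
    omega
  · intro a b
    rw [susp_star]
    unfold BB
    simp only [Fin.ext_iff]
    omega

lemma stA_one {V : Type} {R R' : V → V → Prop} (h : ¬ FPP R) (h' : FPP R') : stA R R' = 1 := by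
  unfold stA
  rw [if_pos ⟨h, h'⟩]

lemma stA_zero_left {V : Type} {R R' : V → V → Prop} (h : FPP R) : stA R R' = 0 := by
  unfold stA
  rw [if_neg]
  exact fun h1 => h1.1 h

lemma stA_zero_right {V : Type} {R R' : V → V → Prop} (h : ¬ FPP R') : stA R R' = 0 := by
  unfold stA
  rw [if_neg]
  exact fun h1 => h h1.2

lemma path_BB (m : ℕ) : ∀ t ≤ m, Path stA (BB m 0) (BB m t) (2 * t) t := by
  intro t
  induction t with
  | zero => intro _; exact Path.refl _
  | succ t ih =>
    intro ht
    have h1 := ih (by omega)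
    have h2 := Path.single (st := stA) (isOrd_CC m t) (step_BB_CC m t (by omega))
    have h3 := Path.single (st := stA) (isOrd_BB m (t + 1)) (step_CC_BB m t (by omega))
    rw [stA_zero_left (FPP_BB m t)] at h2
    rw [stA_one (not_FPP_CC m t (by omega)) (FPP_BB m (t + 1))] at h3
    exact (h1.trans h2).trans h3

lemma path_stageA (m : ℕ) : ∃ k, Path stA (star (m + 2)) (susp (star m)) k (m + 1) := by
  have h1 := Path.single (st := stA) (isOrd_BB m 0) (step_star_BB m)
  rw [stA_one (not_FPP_of_le_star (isOrd_star (m + 2)) (fun a b h => h)) (FPP_BB m 0)] at h1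
  have h2 := path_BB m m le_rfl
  have h3 := Path.single (st := stA) (isOrd_susp (isOrd_star m)) (step_BB_susp m)
  rw [stA_zero_left (FPP_BB m m)] at h3
  refine ⟨1 + 2 * m + 1, ?_⟩
  have h4 := (h1.trans h2).trans h3
  rw [show 1 + m + 0 = m + 1 by ring] at h4
  exact h4

/-- Adding the pair `(0, 1)`. -/
def fin1 {m : ℕ} (R : Fin (m + 2) → Fin (m + 2) → Prop) (a b : Fin (m + 2)) : Prop :=
  R a b ∨ (a.val = 0 ∧ b.val = 1)

lemma isOrd_le (n : ℕ) : IsOrd (fun a b : Fin n => a ≤ b) :=
  ⟨fun _ => le_rfl, fun _ _ h1 h2 => le_antisymm h1 h2, fun _ _ _ h1 h2 => le_trans h1 h2⟩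

lemma path_main : ∀ m : ℕ, ∃ L k, IsOrd L ∧ (∀ a b, L a b ∨ L b a) ∧
    Path stA (star m) L k (m ^ 2 / 4 + 1) := by
  intro m
  induction m using Nat.strong_induction_on with
  | _ m ih =>
    match m, ih with
    | 0, _ =>
      refine ⟨fun a b => a ≤ b, 1, isOrd_le 2, fun a b => le_total a b, ?_⟩
      have h1 : Step (star 0) (fun a b : Fin 2 => a ≤ b) := by
        refine ⟨0, 1, by simp, by unfold star; simp, ?_⟩
        intro a b
        unfold star
        beta_reduce
        rw [Fin.le_def, Fin.ext_iff, Fin.ext_iff, Fin.ext_iff]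
        simp only [Fin.val_zero, Fin.val_one]
        omega
      have h2 := Path.single (st := stA) (isOrd_le 2) h1
      rw [stA_one (not_FPP_of_le_star (isOrd_star 0) (fun a b h => h))
        (FPP_of_comparable (isOrd_le 2) 0 (fun y => le_total _ _))] at h2
      exact h2
    | 1, _ =>
      have hT : IsOrd (fun a b : Fin 3 => a = b ∨ b.val = 2) := by
        refine ⟨fun a => Or.inl rfl, ?_, ?_⟩
        · intro a b
          beta_reduce
          rw [Fin.ext_iff, Fin.ext_iff]
          omega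
        · intro a b c
          beta_reduce
          rw [Fin.ext_iff, Fin.ext_iff, Fin.ext_iff]
          omega
      have hF : FPP (fun a b : Fin 3 => a = b ∨ b.val = 2) :=
        FPP_of_comparable hT 2 (fun y => Or.inr (Or.inr rfl))
      refine ⟨fun a b => a ≤ b, 2, isOrd_le 3, fun a b => le_total a b, ?_⟩
      have h1 : Step (star 1) (fun a b : Fin 3 => a = b ∨ b.val = 2) := by
        refine ⟨1, 2, by simp, by unfold star; simp, ?_⟩
        intro a b
        unfold star
        rw [Fin.ext_iff, Fin.ext_iff, Fin.ext_iff]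
        simp only [Fin.val_one, Fin.val_two]
        omega
      have h2 : Step (fun a b : Fin 3 => a = b ∨ b.val = 2) (fun a b : Fin 3 => a ≤ b) := by
        refine ⟨0, 1, by simp, by simp, ?_⟩
        intro a b
        beta_reduce
        rw [Fin.le_def, Fin.ext_iff, Fin.ext_iff, Fin.ext_iff]
        simp only [Fin.val_zero, Fin.val_one]
        omega
      have h3 := Path.single (st := stA) hT h1
      have h4 := Path.single (st := stA) (isOrd_le 3) h2
      rw [stA_one (not_FPP_of_le_star (isOrd_star 1) (fun a b h => h)) hF] at h3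
      rw [stA_zero_left hF] at h4
      exact h3.trans h4
    | m + 2, ih =>
      obtain ⟨L, k, hL, ht, hP⟩ := ih m (by omega)
      obtain ⟨k', hA⟩ := path_stageA m
      have h1 := path_susp (isOrd_star m) hP
      have hS := isOrd_susp hL
      have hsF : FPP (susp L) := by
        rw [FPP_susp hL]
        exact FPP_of_comparable hL ⟨0, by omega⟩ (fun y => ht _ _)
      have hfin : IsOrd (fin1 (susp L)) := by
        refine ⟨fun a => Or.inl (hS.1 a), ?_, ?_⟩
        · rintro a b (h2 | h2) (h3 | h3)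
          · exact hS.2.1 _ _ h2 h3
          · exfalso
            rcases h2 with rfl | h2 | ⟨i, j, rfl, rfl, h2⟩
            · omega
            · omega
            · rw [up_val, up_val] at h3
              omega
          · exfalso
            rcases h3 with rfl | h3 | ⟨i, j, rfl, rfl, h3⟩
            · omega
            · omega
            · rw [up_val, up_val] at h2
              omega
          · omega
        · rintro a b c (h2 | h2) (h3 | h3)
          · exact Or.inl (hS.2.2 _ _ _ h2 h3)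
          · rcases h2 with rfl | h2 | ⟨i, j, rfl, rfl, h2⟩
            · exact Or.inr h3
            · omega
            · rw [up_val] at h3
              omega
          · rcases h3 with rfl | h3 | ⟨i, j, rfl, rfl, h3⟩
            · exact Or.inr h2
            · exact Or.inl (Or.inr (Or.inl ⟨by omega, h3.2⟩))
            · rw [up_val] at h2
              omega
          · omega
      have hstep : Step (susp L) (fin1 (susp L)) := by
        refine ⟨⟨0, by omega⟩, ⟨1, by omega⟩, by simp, ?_, ?_⟩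
        · rintro (h2 | h2 | ⟨i, j, h2, _, _⟩)
          · simp at h2
          · simp at h2
          · have := congrArg Fin.val h2
            rw [up_val] at this
            simp at this
        · intro a b
          unfold fin1
          rw [Fin.ext_iff (a := a), Fin.ext_iff (a := b)]
      have h2 := Path.single (st := stA) hfin hstep
      rw [stA_zero_left hsF] at h2
      refine ⟨fin1 (susp L), k' + k + 1, hfin, ?_, ?_⟩
      · intro a b
        by_cases ha : 2 ≤ a.val
        · by_cases hb : 2 ≤ b.val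
          · obtain ⟨i, rfl⟩ := exists_up a ha
            obtain ⟨j, rfl⟩ := exists_up b hb
            rcases ht i j with h3 | h3
            · exact Or.inl (Or.inl ((susp_up hL _ _).2 h3))
            · exact Or.inr (Or.inl ((susp_up hL _ _).2 h3))
          · exact Or.inr (Or.inl (Or.inr (Or.inl ⟨by omega, ha⟩)))
        · by_cases hb : 2 ≤ b.val
          · exact Or.inl (Or.inl (Or.inr (Or.inl ⟨by omega, hb⟩)))
          · by_cases hab : a = b
            · exact Or.inl (Or.inl (Or.inl hab))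
            · rw [Fin.ext_iff] at hab
              by_cases h0 : a.val = 0
              · exact Or.inl (Or.inr ⟨h0, by omega⟩)
              · exact Or.inr (Or.inr ⟨by omega, by omega⟩)
      · have h3 := (hA.trans h1).trans h2
        have h4 : m + 1 + (m ^ 2 / 4 + 1) + 0 = (m + 2) ^ 2 / 4 + 1 := by
          have h5 : (m + 2) ^ 2 = m ^ 2 + 4 * (m + 1) := by ring
          rw [h5]
          omega
        rw [h4] at h3
        exact h3

/-- A maximal chain with `(n - 2) ^ 2 / 4 + 1` adjacencies, where `n = m + 2`. -/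
lemma exists_chain_adj (m : ℕ) : ∃ ch : MaxChain (m + 2), numAdj ch = m ^ 2 / 4 + 1 := by
  obtain ⟨L, k, hL, ht, hP⟩ := path_main m
  obtain ⟨k', c', h1, h2⟩ := Path.exists_interp (st := stA) 0 (isOrd_eq (V := Fin (m + 2)))
    (isOrd_star m) (fun a b h => Or.inl h) (by
      intro R1 R2 _ h2 _ _ h3
      rw [stA_zero_right (not_FPP_of_le_star h2 h3)])
  have hc : c' = 0 := by simpa using h2
  subst hc
  obtain ⟨_, ch, hch⟩ := (h1.trans hP).exists_chain hL ht
  refine ⟨ch, ?_⟩
  rw [numAdj_eq, hch, zero_add]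

end Pool.Agent.K9h39.Fpp
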